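import Pool.Agent.Helper57.SL.Stmts
import Pool.Agent.Helper71.CP.M2

set_option autoImplicit false

namespace Pool.Agent.Helper9.SL

open Set Pool.Agent.Helper57.SL Pool.Agent.Helper56.CP

theorem mem_pb {p n : ℕ} : p ∈ Nat.primesBelow (n + 1) ↔ p ≤ n ∧ p.Prime := by
  rw [Nat.mem_primesBelow]
  constructor
  · rintro ⟨h1, h2⟩; exact ⟨by omega, h2⟩
  · rintro ⟨h1, h2⟩; exact ⟨by omega, h2⟩

theorem mtA_pb (n : ℕ) : mtA n = ∑ p ∈ Nat.primesBelow (n + 1), Real.log p / p := by
  unfold mtA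
  refine Finset.sum_congr ?_ fun _ _ => rfl
  ext p
  rw [mem_pb]
  simp only [PP, Finset.mem_filter, Finset.mem_range]
  constructor
  · rintro ⟨h2, h3⟩; exact ⟨by omega, h3⟩
  · rintro ⟨h2, h3⟩; exact ⟨by omega, h3⟩

theorem term {p : ℕ} (hp : p.Prime) (σ : ℝ) :
    Real.log p * (p : ℝ) ^ (-σ) = Real.log p / p * (p : ℝ) ^ (1 - σ) := by
  have h0 : (0 : ℝ) < p := by exact_mod_cast hp.pos
  rw [show (-σ : ℝ) = (1 - σ) - 1 by ring, Real.rpow_sub_one h0.ne']
  ring

theorem st_S2L : ST_S2L := by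
  refine ⟨Real.exp (-7), Real.exp 8, Real.exp_pos _, ?_⟩
  intro z hz σ hσ
  have hσ1 : σ ≤ 1 := hσ.2
  have hσ3 : 3 / 4 ≤ σ := hσ.1
  have hz0 : (0 : ℝ) < z := lt_of_lt_of_le (Real.exp_pos _) hz
  have hz1 : 1 ≤ z := by
    have : 0 < z := by exact_mod_cast hz0
    omega
  have hlz := mtA_ge hz1
  have hA := mtE_abs hz1
  constructor
  · -- the primes in `(y, z]`
    set y : ℕ := ⌊(z : ℝ) * Real.exp (-7)⌋₊ with hy
    have hyz : (z : ℝ) * Real.exp (-7) ≤ z := by
      have : Real.exp (-7) ≤ 1 := by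
        rw [Real.exp_le_one_iff]; norm_num
      nlinarith
    have hpos : 0 < (z : ℝ) * Real.exp (-7) := by positivity
    have hge1 : (1 : ℝ) ≤ (z : ℝ) * Real.exp (-7) := by
      have h1 : Real.exp 8 * Real.exp (-7) ≤ (z : ℝ) * Real.exp (-7) :=
        mul_le_mul_of_nonneg_right hz (Real.exp_pos _).le
      rw [← Real.exp_add] at h1
      have h2 : (1 : ℝ) ≤ Real.exp (8 + -7) := Real.one_le_exp (by norm_num)
      linarith
    have hy1 : 1 ≤ y := (Nat.one_le_floor_iff _).2 hge1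
    have hyle : (y : ℝ) ≤ (z : ℝ) * Real.exp (-7) := Nat.floor_le hpos.le
    have hyz' : y ≤ z := by
      have : (y : ℝ) ≤ z := hyle.trans hyz
      exact_mod_cast this
    have hlogy : Real.log y ≤ Real.log z - 7 := by
      have hy0 : (0 : ℝ) < y := by exact_mod_cast hy1
      have h1 := Real.log_le_log hy0 hyle
      rw [Real.log_mul hz0.ne' (Real.exp_pos _).ne', Real.log_exp] at h1
      linarith
    have hE := abs_le.1 (mtE_abs hy1)
    unfold mtE at hE
    have hdiff : 1 ≤ mtA z - mtA y := by linarith [hE.2]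
    have hsub : Nat.primesBelow (y + 1) ⊆ Nat.primesBelow (z + 1) := by
      intro p hp
      rw [mem_pb] at hp ⊢
      exact ⟨hp.1.trans hyz', hp.2⟩
    have e1 : mtA z - mtA y =
        ∑ p ∈ Nat.primesBelow (z + 1) \ Nat.primesBelow (y + 1), Real.log p / p := by
      rw [mtA_pb, mtA_pb, ← Finset.sum_sdiff hsub]
      ring
    have hx0 : 0 ≤ 1 - σ := by linarith
    have hterm : ∀ p ∈ Nat.primesBelow (z + 1) \ Nat.primesBelow (y + 1),
        Real.log p / p * ((z : ℝ) * Real.exp (-7)) ^ (1 - σ) ≤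
          Real.log p * (p : ℝ) ^ (-σ) := by
      intro p hp
      rw [Finset.mem_sdiff, mem_pb, mem_pb] at hp
      have hpp := hp.1.2
      have hpy : y < p := by
        by_contra h
        exact hp.2 ⟨not_lt.1 h, hpp⟩
      have hp1 : (z : ℝ) * Real.exp (-7) ≤ p := ((Nat.floor_lt hpos.le).1 hpy).le
      rw [term hpp]
      apply mul_le_mul_of_nonneg_left
      · exact Real.rpow_le_rpow hpos.le hp1 hx0
      · exact div_nonneg (Real.log_natCast_nonneg p) (Nat.cast_nonneg p)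
    have hfull : ∑ p ∈ Nat.primesBelow (z + 1) \ Nat.primesBelow (y + 1),
        Real.log p * (p : ℝ) ^ (-σ) ≤ S2 σ z := by
      unfold S2
      apply Finset.sum_le_sum_of_subset_of_nonneg Finset.sdiff_subset
      intro p _ _
      exact mul_nonneg (Real.log_natCast_nonneg p) (Real.rpow_nonneg (Nat.cast_nonneg p) _)
    have hw : 0 < ((z : ℝ) * Real.exp (-7)) ^ (1 - σ) := Real.rpow_pos_of_pos hpos _
    have h2 : ((z : ℝ) * Real.exp (-7)) ^ (1 - σ) ≤
        ∑ p ∈ Nat.primesBelow (z + 1) \ Nat.primesBelow (y + 1),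
          Real.log p * (p : ℝ) ^ (-σ) := by
      refine le_trans ?_ (Finset.sum_le_sum hterm)
      rw [← Finset.sum_mul, ← e1]
      nlinarith
    refine le_trans ?_ (h2.trans hfull)
    rw [Real.mul_rpow hz0.le (Real.exp_pos _).le, mul_comm]
    apply mul_le_mul_of_nonneg_left _ (Real.rpow_nonneg hz0.le _)
    rw [← Real.exp_mul]
    apply Real.exp_le_exp.2
    linarith
  · refine hlz.trans ?_
    rw [mtA_pb]
    unfold S2
    refine Finset.sum_le_sum fun p hp => ?_
    have hpp := (mem_pb.1 hp).2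
    rw [term hpp]
    have h1 : (1 : ℝ) ≤ (p : ℝ) ^ (1 - σ) :=
      Real.one_le_rpow (by exact_mod_cast hpp.one_le) (by linarith)
    have h2 : 0 ≤ Real.log p / p :=
      div_nonneg (Real.log_natCast_nonneg p) (Nat.cast_nonneg p)
    nlinarith

end Pool.Agent.Helper9.SL
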